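import Pool.Agent.P.MP_ea3df5_lc.Main
import Pool.Agent.P.MP_ea3df5_lc.Moore

/-!
The chain continuum-connection relation of every planar `Gδ` set is Borel reducible to `E₀`.
-/

namespace Pool.Agent.Results.MP_ea3df5_lc.ChainCC

open Set

/-- The chain continuum-connection relation of `X`: for every `ε > 0` there are continua
`K 0, …, K n` inside `X` of diameter `< ε`, consecutive ones meeting, from `x` to `y`. -/
def ECC (X : Set (EuclideanSpace ℝ (Fin 2))) (x y : EuclideanSpace ℝ (Fin 2)) : Prop :=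
  ∀ ε : ℝ, 0 < ε → ∃ (n : ℕ) (K : ℕ → Set (EuclideanSpace ℝ (Fin 2))),
    (∀ i ≤ n, IsCompact (K i) ∧ IsConnected (K i) ∧ K i ⊆ X ∧ Metric.diam (K i) < ε) ∧
      x ∈ K 0 ∧ y ∈ K n ∧ ∀ i < n, (K i ∩ K (i + 1)).Nonempty

open Pool.Agent.P.MP_ea3df5_lc in
theorem ecc_iff {X : Set (EuclideanSpace ℝ (Fin 2))} {x y : EuclideanSpace ℝ (Fin 2)}
    (hx : x ∈ X) : ECC X x y ↔ Ec X x y := by
  refine forall_congr' fun ε => forall_congr' fun hε => ⟨?_, fun h => ?_⟩
  · rintro ⟨n, K, h1, h2, h3, h4⟩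
    induction n generalizing y with
    | zero =>
      obtain ⟨k1, k2, k3, k4⟩ := h1 0 le_rfl
      exact en_of_cont ⟨k1, k2⟩ k3 k4 h2 h3
    | succ n ih =>
      obtain ⟨z, hz, hz'⟩ := h4 n (Nat.lt_succ_self n)
      obtain ⟨k1, k2, k3, k4⟩ := h1 (n + 1) le_rfl
      exact (ih (fun i hi => h1 i (hi.trans (Nat.le_succ n))) hz
        fun i hi => h4 i (hi.trans (Nat.lt_succ_self n))).trans
          (en_of_cont ⟨k1, k2⟩ k3 k4 hz' h3)
  · induction h with
    | refl =>
      exact ⟨0, fun _ => {x}, fun _ _ => ⟨isCompact_singleton, isConnected_singleton,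
        singleton_subset_iff.2 hx, by simpa using hε⟩, rfl, rfl, fun i hi => absurd hi (by omega)⟩
    | @tail b c _ h ih =>
      obtain ⟨n, K, h1, h2, h3, h4⟩ := ih
      obtain ⟨L, l1, l2, l3, l4, l5⟩ := h
      refine ⟨n + 1, fun i => if i ≤ n then K i else L, fun i _ => ?_, by simpa using h2,
        by simpa using l5, fun i hi => ?_⟩
      · by_cases hi : i ≤ n
        · simpa only [if_pos hi] using h1 i hi
        · simp only [if_neg hi]; exact ⟨l1.1, l1.2, l2, l3⟩
      · by_cases hi' : i + 1 ≤ n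
        · simpa only [if_pos hi', if_pos (show i ≤ n by omega)] using h4 i hi'
        · obtain rfl : i = n := by omega
          simp only [if_neg hi', if_pos le_rfl]
          exact ⟨b, h3, l4⟩

open Pool.Agent.P.MP_ea3df5_lc in
theorem result (X : Set (EuclideanSpace ℝ (Fin 2))) (hX : IsGδ X) :
    ∃ f : X → (ℕ → Bool), @Measurable _ _ (borel X) (borel (ℕ → Bool)) f ∧
      ∀ x y : X, ECC X x y ↔ {n | f x n ≠ f y n}.Finite := by
  classical
  borelize (TopologicalSpace.NonemptyCompacts (EuclideanSpace ℝ (Fin 2)))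
  borelize (C(Icc (0 : ℝ) 1, EuclideanSpace ℝ (Fin 2)))
  have hM : Moore (EuclideanSpace ℝ (Fin 2)) := fun 𝓕 h hd =>
    moore Complex.orthonormalBasisOneI.repr.symm Complex.orthonormalBasisOneI.repr.symm.continuous
      Complex.orthonormalBasisOneI.repr.symm.injective h hd
  obtain ⟨f, h1, h2⟩ := red_ec hX hM
  refine ⟨fun x n => decide (n ∈ f x), ?_, fun x y => ?_⟩
  · rw [← BorelSpace.measurable_eq (α := X), ← BorelSpace.measurable_eq (α := ℕ → Bool)]
    refine measurable_pi_lambda _ fun n => measurable_to_bool ?_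
    have := ((h1 n).comp (measurable_subtype_coe (p := fun x => x ∈ X))).setOf
    convert this using 1
    ext x
    simp
  · rw [ecc_iff x.2, h2 x y x.2 y.2]
    refine iff_of_eq (congrArg Set.Finite ?_)
    ext n
    simp only [mem_symmDiff, ne_eq, decide_eq_decide, mem_ofPred_eq]
    tauto

end Pool.Agent.Results.MP_ea3df5_lc.ChainCC
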